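import Mathlib

/-!
# Bl Blaschke: zeros of a function of polynomial growth on a half plane (project LOG-U, condition form')

`bb a z = (z - a) / (z - conj a)` is the Blaschke factor of the upper half plane.  `prod_bound`: a function bounded by `M` with zeros at the points of a finite set `s` is
bounded by `M * ∏ ‖bb a z‖`.
-/

set_option autoImplicit false

open Topology Filter Metric

namespace Pool.Agent.H62.Bl

/-- the upper half plane -/
def Hp : Set ℂ := {z | 0 < z.im}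

theorem isOpen_Hp : IsOpen Hp := isOpen_lt continuous_const Complex.continuous_im

/-- the Blaschke factor -/
noncomputable def bb (a z : ℂ) : ℂ := (z - a) / (z - (starRingEnd ℂ) a)

/-- the inverse map -/
noncomputable def ps (a w : ℂ) : ℂ := (a - (starRingEnd ℂ) a * w) / (1 - w)

theorem den_ne {a z : ℂ} (ha : 0 < a.im) (hz : 0 < z.im) : z - (starRingEnd ℂ) a ≠ 0 := by
  intro h
  have h1 := congrArg Complex.im h
  rw [Complex.sub_im, Complex.conj_im, Complex.zero_im] at h1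
  linarith

/-- the identity for the Blaschke factor -/
theorem one_sub_bb {a z : ℂ} (ha : 0 < a.im) (hz : 0 < z.im) : 1 - ‖bb a z‖ ^ 2 = 4 * a.im * z.im / ‖z - (starRingEnd ℂ) a‖ ^ 2 := by
  have h1 := den_ne ha hz
  have h2 : 0 < ‖z - (starRingEnd ℂ) a‖ := norm_pos_iff.2 h1
  unfold bb
  rw [norm_div, div_pow, eq_div_iff (by positivity), sub_mul, div_mul_cancel₀ _ (by positivity), one_mul, Complex.sq_norm, Complex.sq_norm,
    Complex.normSq_apply, Complex.normSq_apply, Complex.sub_re, Complex.sub_im, Complex.sub_re, Complex.sub_im, Complex.conj_re, Complex.conj_im]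
  ring

theorem norm_bb_lt {a z : ℂ} (ha : 0 < a.im) (hz : 0 < z.im) : ‖bb a z‖ < 1 := by
  have h1 := one_sub_bb ha hz
  have h2 : 0 < ‖z - (starRingEnd ℂ) a‖ := norm_pos_iff.2 (den_ne ha hz)
  have h3 : 0 < 4 * a.im * z.im / ‖z - (starRingEnd ℂ) a‖ ^ 2 := by positivity
  rw [← h1] at h3
  nlinarith [norm_nonneg (bb a z)]

/-- the exponential estimate of the Blaschke factor -/
theorem norm_bb_le {a z : ℂ} (ha : 0 < a.im) (hz : 0 < z.im) : ‖bb a z‖ ≤ Real.exp (-(2 * a.im * z.im / ‖z - (starRingEnd ℂ) a‖ ^ 2)) := by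
  have h1 := one_sub_bb ha hz
  set t := 2 * a.im * z.im / ‖z - (starRingEnd ℂ) a‖ ^ 2 with ht
  have h2 : 4 * a.im * z.im / ‖z - (starRingEnd ℂ) a‖ ^ 2 = 2 * t := by
    rw [ht]
    ring
  rw [h2] at h1
  have h3 : ‖bb a z‖ ^ 2 ≤ Real.exp (-t) ^ 2 := by
    rw [← Real.exp_nat_mul]
    have h4 := Real.add_one_le_exp (((2 : ℕ) : ℝ) * -t)
    push_cast at h4 ⊢
    linarith
  exact (pow_le_pow_iff_left₀ (norm_nonneg _) (Real.exp_pos _).le two_ne_zero).1 h3

theorem ps_im {a w : ℂ} (ha : 0 < a.im) (hw : ‖w‖ < 1) : 0 < (ps a w).im := by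
  have h0 : (1 : ℂ) - w ≠ 0 := by
    intro h
    rw [sub_eq_zero] at h
    rw [← h, norm_one] at hw
    exact lt_irrefl _ hw
  have h1 : 0 < Complex.normSq (1 - w) := Complex.normSq_pos.2 h0
  unfold ps
  rw [Complex.div_im]
  have h2 : ((a - (starRingEnd ℂ) a * w).im * (1 - w).re / Complex.normSq (1 - w) - (a - (starRingEnd ℂ) a * w).re * (1 - w).im / Complex.normSq (1 - w)) =
      a.im * (1 - ‖w‖ ^ 2) / Complex.normSq (1 - w) := by
    rw [← sub_div]
    congr 1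
    rw [Complex.sq_norm, Complex.normSq_apply]
    simp only [Complex.sub_re, Complex.sub_im, Complex.mul_re, Complex.mul_im, Complex.conj_re, Complex.conj_im, Complex.one_re, Complex.one_im]
    ring
  rw [h2]
  have h3 : 0 < 1 - ‖w‖ ^ 2 := by nlinarith [norm_nonneg w]
  positivity

theorem ps_bb {a z : ℂ} (ha : 0 < a.im) (hz : 0 < z.im) : ps a (bb a z) = z := by
  have h1 := den_ne ha hz
  have h2 : a - (starRingEnd ℂ) a ≠ 0 := den_ne ha ha
  have h3 : 1 - bb a z = (a - (starRingEnd ℂ) a) / (z - (starRingEnd ℂ) a) := by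
    unfold bb
    field_simp
    ring
  unfold ps
  rw [h3, div_eq_iff (div_ne_zero h2 h1)]
  unfold bb
  field_simp
  ring

theorem ps_zero (a : ℂ) : ps a 0 = a := by
  unfold ps
  simp

theorem bb_self (a : ℂ) : bb a a = 0 := by
  unfold bb
  simp

theorem bb_ne {a z : ℂ} (ha : 0 < a.im) (hz : 0 < z.im) (h : z ≠ a) : bb a z ≠ 0 := div_ne_zero (sub_ne_zero.2 h) (den_ne ha hz)

theorem differentiableOn_ps (a : ℂ) : DifferentiableOn ℂ (ps a) (ball 0 1) := by
  intro w hw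
  rw [mem_ball_zero_iff] at hw
  have h0 : (1 : ℂ) - w ≠ 0 := by
    intro h
    rw [sub_eq_zero] at h
    rw [← h, norm_one] at hw
    exact lt_irrefl _ hw
  unfold ps
  exact (DifferentiableAt.div (by fun_prop) (by fun_prop) h0).differentiableWithinAt

theorem differentiableOn_bb {a : ℂ} (ha : 0 < a.im) : DifferentiableOn ℂ (bb a) Hp := by
  intro z hz
  unfold bb
  exact (DifferentiableAt.div (differentiableAt_id.sub_const a) (differentiableAt_id.sub_const ((starRingEnd ℂ) a)) (den_ne ha hz)).differentiableWithinAt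

/-- **One factor.** -/
theorem exists_factor {F : ℂ → ℂ} {M : ℝ} (hF : DifferentiableOn ℂ F Hp) (hM : ∀ z ∈ Hp, ‖F z‖ ≤ M) {a : ℂ} (ha : a ∈ Hp) (h0 : F a = 0) :
    ∃ F₁ : ℂ → ℂ, DifferentiableOn ℂ F₁ Hp ∧ (∀ z ∈ Hp, ‖F₁ z‖ ≤ M) ∧ ∀ z ∈ Hp, F z = bb a z * F₁ z := by
  have ha' : 0 < a.im := ha
  set G : ℂ → ℂ := fun w => F (ps a w) with hG
  have hmaps : Set.MapsTo (ps a) (ball 0 1) Hp := fun w hw => ps_im ha' (mem_ball_zero_iff.1 hw)
  have hGd : DifferentiableOn ℂ G (ball 0 1) := hF.comp (differentiableOn_ps a) hmaps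
  have hG0 : G 0 = 0 := by
    show F (ps a 0) = 0
    rw [ps_zero, h0]
  have hDd : DifferentiableOn ℂ (dslope G 0) (ball 0 1) := (Complex.differentiableOn_dslope (ball_mem_nhds 0 one_pos)).2 hGd
  have hDb : ∀ w ∈ ball (0 : ℂ) 1, ‖dslope G 0 w‖ ≤ M := by
    intro w hw
    have h1 := Complex.norm_dslope_le_div_of_mapsTo_ball (R₂ := M) hGd (fun v hv => ?_) hw
    · rwa [div_one] at h1
    · rw [hG0, mem_closedBall_zero_iff]
      exact hM _ (hmaps hv)
  have hbm : Set.MapsTo (bb a) Hp (ball 0 1) := fun z hz => mem_ball_zero_iff.2 (norm_bb_lt ha' hz)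
  refine ⟨fun z => dslope G 0 (bb a z), hDd.comp (differentiableOn_bb ha') hbm, fun z hz => hDb _ (hbm hz), fun z hz => ?_⟩
  have h1 : F z = G (bb a z) := by
    show F z = F (ps a (bb a z))
    rw [ps_bb ha' hz]
  have h2 := sub_smul_dslope G 0 (bb a z)
  rw [sub_zero, hG0, sub_zero, smul_eq_mul] at h2
  rw [h1, h2]

/-- **Finitely many zeros.** -/
theorem prod_bound (s : Finset ℂ) : ∀ {F : ℂ → ℂ} {M : ℝ}, DifferentiableOn ℂ F Hp → (∀ z ∈ Hp, ‖F z‖ ≤ M) → (∀ a ∈ s, a ∈ Hp ∧ F a = 0) →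
    ∀ z ∈ Hp, ‖F z‖ ≤ M * ∏ a ∈ s, ‖bb a z‖ := by
  induction s using Finset.induction_on with
  | empty =>
    intro F M _ hM _ z hz
    rw [Finset.prod_empty, mul_one]
    exact hM z hz
  | insert a s has ih =>
    intro F M hF hM h0 z hz
    obtain ⟨ha, ha0⟩ := h0 a (Finset.mem_insert_self a s)
    obtain ⟨F₁, h1, h2, h3⟩ := exists_factor hF hM ha ha0
    have h4 := ih h1 h2 (fun c hc => ⟨(h0 c (Finset.mem_insert_of_mem hc)).1, by
      obtain ⟨hc1, hc2⟩ := h0 c (Finset.mem_insert_of_mem hc)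
      have h5 := h3 c hc1
      rw [hc2] at h5
      have h6 : c ≠ a := fun h => has (h ▸ hc)
      exact (mul_eq_zero.1 h5.symm).resolve_left (bb_ne ha hc1 h6)⟩) z hz
    rw [h3 z hz, norm_mul, Finset.prod_insert has]
    calc ‖bb a z‖ * ‖F₁ z‖ ≤ ‖bb a z‖ * (M * ∏ c ∈ s, ‖bb c z‖) := mul_le_mul_of_nonneg_left h4 (norm_nonneg _)
      _ = M * (‖bb a z‖ * ∏ c ∈ s, ‖bb c z‖) := by ring

/-- **The Blaschke condition.** -/
theorem summable_of_ne {F : ℂ → ℂ} {M : ℝ} (hF : DifferentiableOn ℂ F Hp) (hM : ∀ z ∈ Hp, ‖F z‖ ≤ M) {ι : Type*} {a : ι → ℂ} (hinj : Function.Injective a)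
    (h0 : ∀ i, a i ∈ Hp ∧ F (a i) = 0) {z : ℂ} (hz : z ∈ Hp) (hne : F z ≠ 0) : Summable fun i => (a i).im / ‖z - (starRingEnd ℂ) (a i)‖ ^ 2 := by
  classical
  have hz' : 0 < z.im := hz
  have hpos : 0 < ‖F z‖ := norm_pos_iff.2 hne
  have hMpos : 0 < M := lt_of_lt_of_le hpos (hM z hz)
  refine summable_of_sum_le (c := Real.log (M / ‖F z‖) / (2 * z.im)) (fun i => div_nonneg (le_of_lt (h0 i).1) (by positivity)) fun s => ?_
  have h1 := prod_bound (s.image a) hF hM (fun c hc => by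
    obtain ⟨i, -, rfl⟩ := Finset.mem_image.1 hc
    exact h0 i) z hz
  rw [Finset.prod_image fun i _ j _ h => hinj h] at h1
  have h2 : ∏ i ∈ s, ‖bb (a i) z‖ ≤ ∏ i ∈ s, Real.exp (-(2 * (a i).im * z.im / ‖z - (starRingEnd ℂ) (a i)‖ ^ 2)) :=
    Finset.prod_le_prod (fun i _ => norm_nonneg _) fun i _ => norm_bb_le (h0 i).1 hz'
  rw [← Real.exp_sum, Finset.sum_neg_distrib] at h2
  set T := ∑ i ∈ s, 2 * (a i).im * z.im / ‖z - (starRingEnd ℂ) (a i)‖ ^ 2 with hT
  have h3 : T = 2 * z.im * ∑ i ∈ s, (a i).im / ‖z - (starRingEnd ℂ) (a i)‖ ^ 2 := by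
    rw [hT, Finset.mul_sum]
    refine Finset.sum_congr rfl fun i _ => ?_
    ring
  have h4 : ‖F z‖ ≤ M * Real.exp (-T) := h1.trans (mul_le_mul_of_nonneg_left h2 hMpos.le)
  have h5 : T ≤ Real.log (M / ‖F z‖) := by
    rw [Real.le_log_iff_exp_le (by positivity), le_div_iff₀ hpos]
    rw [Real.exp_neg] at h4
    have h6 : 0 < Real.exp T := Real.exp_pos T
    calc Real.exp T * ‖F z‖ ≤ Real.exp T * (M * (Real.exp T)⁻¹) := mul_le_mul_of_nonneg_left h4 h6.le
      _ = M := by field_simp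
  rw [le_div_iff₀ (by positivity)]
  linarith

end Pool.Agent.H62.Bl
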