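import Pool.Agent.H62.Bl.Blaschke

/-!
# Bl Family: a finite family of functions of polynomial growth on a half plane, one of which has a zero in every box

`zero_family`: if for every large `l` some member of the family has a zero within `r` of `i p l`, then one member, which occurs for infinitely many `l`, is zero.
-/

set_option autoImplicit false

open Topology Filter Metric

namespace Pool.Agent.H62.Bl

theorem one_add_le {z : ℂ} (hz : 0 < z.im) : 1 + ‖z‖ ≤ 2 * ‖z + Complex.I‖ := by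
  have h1 : ‖z + Complex.I‖ ^ 2 = ‖z‖ ^ 2 + 2 * z.im + 1 := by
    rw [Complex.sq_norm, Complex.sq_norm, Complex.normSq_apply, Complex.normSq_apply, Complex.add_re, Complex.add_im, Complex.I_re, Complex.I_im]
    ring
  have h2 : (1 + ‖z‖) ^ 2 ≤ (2 * ‖z + Complex.I‖) ^ 2 := by
    rw [mul_pow, h1]
    nlinarith [sq_nonneg (1 - ‖z‖)]
  exact (pow_le_pow_iff_left₀ (by positivity) (by positivity) two_ne_zero).1 h2

theorem add_I_ne {z : ℂ} (hz : 0 < z.im) : z + Complex.I ≠ 0 := by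
  intro h
  have h1 := congrArg Complex.im h
  rw [Complex.add_im, Complex.I_im, Complex.zero_im] at h1
  linarith

theorem im_shift (z : ℂ) (ρ : ℝ) : (z + (ρ : ℂ) * Complex.I).im = z.im + ρ := by
  simp

/-- **One function.** -/
theorem zero_one {J : ℂ → ℂ} {p r ρ C : ℝ} {m : ℕ} (hp : 2 * r < p) (hr : 0 ≤ r) (hC : 0 ≤ C) (hJ : DifferentiableOn ℂ J {z | ρ < z.im})
    (hb : ∀ z : ℂ, ρ < z.im → ‖J z‖ ≤ C * (1 + ‖z‖) ^ m) {N : Set ℕ} (hN : ¬ Summable (N.indicator fun n : ℕ => 1 / (n : ℝ))) {a : ℕ → ℂ}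
    (ha : ∀ n ∈ N, ‖a n - p * n * Complex.I‖ ≤ r ∧ ρ < (a n).im ∧ J (a n) = 0) : ∀ z : ℂ, ρ < z.im → J z = 0 := by
  intro z₁ hz₁
  by_contra hne
  apply hN
  have hp0 : 0 < p := by linarith
  have hUo : IsOpen {z : ℂ | ρ < z.im} := isOpen_lt continuous_const Complex.continuous_im
  set F : ℂ → ℂ := fun z => J (z + (ρ : ℂ) * Complex.I) / (z + Complex.I) ^ m with hF
  have hsh : ∀ z ∈ Hp, ρ < (z + (ρ : ℂ) * Complex.I).im := fun z hz => by
    have hz' : 0 < z.im := hz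
    rw [im_shift]
    linarith
  have hFd : DifferentiableOn ℂ F Hp := by
    intro z hz
    have h1 : DifferentiableAt ℂ (fun z : ℂ => J (z + (ρ : ℂ) * Complex.I)) z :=
      (hJ.differentiableAt (hUo.mem_nhds (hsh z hz))).comp z (differentiableAt_id.add_const _)
    exact (h1.div ((differentiableAt_id.add_const Complex.I).pow m) (pow_ne_zero m (add_I_ne hz))).differentiableWithinAt
  have hFb : ∀ z ∈ Hp, ‖F z‖ ≤ C * (1 + |ρ|) ^ m * 2 ^ m := by
    intro z hz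
    have hz' : 0 < z.im := hz
    have h1 := hb _ (hsh z hz)
    have h2 : 0 < ‖z + Complex.I‖ := norm_pos_iff.2 (add_I_ne hz')
    show ‖J (z + (ρ : ℂ) * Complex.I) / (z + Complex.I) ^ m‖ ≤ _
    rw [norm_div, norm_pow, div_le_iff₀ (by positivity)]
    refine h1.trans ?_
    have h3 : 1 + ‖z + (ρ : ℂ) * Complex.I‖ ≤ (1 + |ρ|) * (2 * ‖z + Complex.I‖) := by
      have h4 : ‖z + (ρ : ℂ) * Complex.I‖ ≤ ‖z‖ + |ρ| := by
        refine (norm_add_le _ _).trans ?_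
        rw [norm_mul, Complex.norm_I, mul_one, Complex.norm_real, Real.norm_eq_abs]
      have h5 := one_add_le hz'
      calc 1 + ‖z + (ρ : ℂ) * Complex.I‖ ≤ 1 + (‖z‖ + |ρ|) := by linarith
        _ ≤ (1 + |ρ|) * (1 + ‖z‖) := by nlinarith [mul_nonneg (abs_nonneg ρ) (norm_nonneg z)]
        _ ≤ (1 + |ρ|) * (2 * ‖z + Complex.I‖) := mul_le_mul_of_nonneg_left h5 (by positivity)
    calc C * (1 + ‖z + (ρ : ℂ) * Complex.I‖) ^ m ≤ C * ((1 + |ρ|) * (2 * ‖z + Complex.I‖)) ^ m := by gcongr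
      _ = C * (1 + |ρ|) ^ m * 2 ^ m * ‖z + Complex.I‖ ^ m := by rw [mul_pow, mul_pow]; ring
  set z₀ : ℂ := z₁ - (ρ : ℂ) * Complex.I with hz₀
  have hz₀H : z₀ ∈ Hp := by
    show 0 < (z₁ - (ρ : ℂ) * Complex.I).im
    rw [Complex.sub_im]
    simp
    exact hz₁
  have hFne : F z₀ ≠ 0 := by
    show J (z₀ + (ρ : ℂ) * Complex.I) / (z₀ + Complex.I) ^ m ≠ 0
    rw [hz₀, sub_add_cancel]
    exact div_ne_zero hne (pow_ne_zero m (add_I_ne hz₀H))
  -- the zeros
  set b : N → ℂ := fun n => a n - (ρ : ℂ) * Complex.I with hbdef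
  have hbim : ∀ n, (b n).im = (a n).im - ρ := fun n => by
    show (a n - (ρ : ℂ) * Complex.I).im = _
    rw [Complex.sub_im]
    simp
  have hinj : Function.Injective b := by
    intro n n' h
    have h1 : a n = a n' := by
      have h2 : a n - (ρ : ℂ) * Complex.I = a n' - (ρ : ℂ) * Complex.I := h
      exact sub_left_inj.1 h2
    have h2 := (ha n n.2).1
    have h3 := (ha n' n'.2).1
    rw [← h1] at h3
    by_contra hnn
    have h4 : (1 : ℝ) ≤ |((n : ℕ) : ℝ) - ((n' : ℕ) : ℝ)| := by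
      have h5 : ((n : ℕ) : ℤ) - ((n' : ℕ) : ℤ) ≠ 0 := by
        intro h6
        apply hnn
        apply Subtype.ext
        have h7 : ((n : ℕ) : ℤ) = ((n' : ℕ) : ℤ) := by linarith
        exact_mod_cast h7
      have h6 := Int.one_le_abs h5
      exact_mod_cast h6
    have h5 : ‖(p : ℂ) * ((n : ℕ) : ℂ) * Complex.I - p * ((n' : ℕ) : ℂ) * Complex.I‖ ≤ 2 * r := by
      have h6 : (p : ℂ) * ((n : ℕ) : ℂ) * Complex.I - p * ((n' : ℕ) : ℂ) * Complex.I = (a n - p * ((n' : ℕ) : ℂ) * Complex.I) - (a n - p * ((n : ℕ) : ℂ) * Complex.I) := by ring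
      rw [h6]
      refine (norm_sub_le _ _).trans ?_
      linarith
    have h6 : (p : ℂ) * ((n : ℕ) : ℂ) * Complex.I - p * ((n' : ℕ) : ℂ) * Complex.I = ((p * (((n : ℕ) : ℝ) - ((n' : ℕ) : ℝ)) : ℝ) : ℂ) * Complex.I := by
      push_cast
      ring
    rw [h6, norm_mul, Complex.norm_I, mul_one, Complex.norm_real, Real.norm_eq_abs, abs_mul, abs_of_pos hp0] at h5
    nlinarith
  have h0 : ∀ n, b n ∈ Hp ∧ F (b n) = 0 := by
    intro n
    obtain ⟨-, h2, h3⟩ := ha n n.2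
    refine ⟨?_, ?_⟩
    · show 0 < (b n).im
      rw [hbim]
      linarith
    · show J (b n + (ρ : ℂ) * Complex.I) / (b n + Complex.I) ^ m = 0
      have h4 : b n + (ρ : ℂ) * Complex.I = a n := by
        show a n - (ρ : ℂ) * Complex.I + (ρ : ℂ) * Complex.I = a n
        rw [sub_add_cancel]
      rw [h4, h3, zero_div]
  have hsum := summable_of_ne hFd hFb hinj h0 hz₀H hFne
  rw [← summable_subtype_iff_indicator]
  refine Summable.of_norm_bounded_eventually (hsum.mul_left (8 * p)) ?_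
  obtain ⟨L, hL⟩ := exists_nat_ge ((2 * (r + |ρ|) + 1 + ‖z₀‖) / p)
  have hfin : {n : N | ¬ ((L : ℕ) ≤ (n : ℕ))}.Finite := by
    refine Set.Finite.of_finite_image (f := fun n : N => (n : ℕ)) ((Set.finite_lt_nat L).subset ?_) (fun x _ y _ h => Subtype.ext h)
    rintro _ ⟨n, hn, rfl⟩
    exact not_le.1 hn
  have hev : ∀ᶠ n : N in cofinite, (L : ℕ) ≤ (n : ℕ) := by
    rw [Filter.eventually_cofinite]
    exact hfin
  filter_upwards [hev] with n hn
  obtain ⟨h2, h3, -⟩ := ha n n.2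
  have hn' : (L : ℝ) ≤ ((n : ℕ) : ℝ) := by exact_mod_cast hn
  have hpl : 2 * (r + |ρ|) + 1 + ‖z₀‖ ≤ p * ((n : ℕ) : ℝ) := by
    rw [div_le_iff₀ hp0] at hL
    nlinarith
  have hz0n := norm_nonneg z₀
  have habs := abs_nonneg ρ
  have hρl := le_abs_self ρ
  have hn0 : 0 < ((n : ℕ) : ℝ) := by
    by_contra h4
    have h5 : p * ((n : ℕ) : ℝ) ≤ 0 := mul_nonpos_of_nonneg_of_nonpos hp0.le (not_lt.1 h4)
    linarith
  have him : p * ((n : ℕ) : ℝ) / 2 ≤ (b n).im := by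
    rw [hbim]
    have h4 := (Complex.abs_im_le_norm (a n - p * ((n : ℕ) : ℂ) * Complex.I)).trans h2
    rw [Complex.sub_im] at h4
    have h5 : ((p : ℂ) * ((n : ℕ) : ℂ) * Complex.I).im = p * ((n : ℕ) : ℝ) := by simp
    rw [h5] at h4
    have h6 := (abs_le.1 h4).1
    linarith
  have hnorm : ‖z₀ - (starRingEnd ℂ) (b n)‖ ≤ 2 * (p * ((n : ℕ) : ℝ)) := by
    refine (norm_sub_le _ _).trans ?_
    rw [RCLike.norm_conj]
    have h4 : ‖b n‖ ≤ ‖a n - p * ((n : ℕ) : ℂ) * Complex.I‖ + p * ((n : ℕ) : ℝ) + |ρ| := by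
      have h5 : b n = (a n - p * ((n : ℕ) : ℂ) * Complex.I) + ((p * ((n : ℕ) : ℝ) : ℝ) : ℂ) * Complex.I - (ρ : ℂ) * Complex.I := by
        show a n - (ρ : ℂ) * Complex.I = _
        push_cast
        ring
      rw [h5]
      refine (norm_sub_le _ _).trans ?_
      refine add_le_add ((norm_add_le _ _).trans (add_le_add le_rfl ?_)) ?_
      · rw [norm_mul, Complex.norm_I, mul_one, Complex.norm_real, Real.norm_of_nonneg (by positivity)]
      · rw [norm_mul, Complex.norm_I, mul_one, Complex.norm_real, Real.norm_eq_abs]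
    linarith
  have hpos : 0 < ‖z₀ - (starRingEnd ℂ) (b n)‖ := norm_pos_iff.2 (den_ne (h0 n).1 hz₀H)
  show ‖1 / (((n : ℕ) : ℝ))‖ ≤ 8 * p * ((b n).im / ‖z₀ - (starRingEnd ℂ) (b n)‖ ^ 2)
  rw [Real.norm_of_nonneg (by positivity), div_le_iff₀ hn0]
  have h7 : ‖z₀ - (starRingEnd ℂ) (b n)‖ ^ 2 ≤ (2 * (p * ((n : ℕ) : ℝ))) ^ 2 := pow_le_pow_left₀ (norm_nonneg _) hnorm 2
  have h8 : 1 / (8 * (p * ((n : ℕ) : ℝ))) ≤ (b n).im / ‖z₀ - (starRingEnd ℂ) (b n)‖ ^ 2 := by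
    rw [div_le_div_iff₀ (by positivity) (by positivity), one_mul]
    calc ‖z₀ - (starRingEnd ℂ) (b n)‖ ^ 2 ≤ (2 * (p * ((n : ℕ) : ℝ))) ^ 2 := h7
      _ = (p * ((n : ℕ) : ℝ) / 2) * (8 * (p * ((n : ℕ) : ℝ))) := by ring
      _ ≤ (b n).im * (8 * (p * ((n : ℕ) : ℝ))) := mul_le_mul_of_nonneg_right him (by positivity)
  calc (1 : ℝ) = 8 * p * (1 / (8 * (p * ((n : ℕ) : ℝ)))) * ((n : ℕ) : ℝ) := by field_simp
    _ ≤ 8 * p * ((b n).im / ‖z₀ - (starRingEnd ℂ) (b n)‖ ^ 2) * ((n : ℕ) : ℝ) := by gcongr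

/-- **A finite family.**  `Q i l` is any extra property of the index which is chosen for `l`. -/
theorem zero_family {ι : Type*} [Finite ι] {J : ι → ℂ → ℂ} {p r ρ C : ℝ} {m : ℕ} (hp : 0 < p) (hr : 0 ≤ r) (hC : 0 ≤ C)
    (hJ : ∀ i, DifferentiableOn ℂ (J i) {z | ρ < z.im}) (hb : ∀ i, ∀ z : ℂ, ρ < z.im → ‖J i z‖ ≤ C * (1 + ‖z‖) ^ m) {Q : ι → ℕ → Prop} {l₀ : ℕ}
    (hz : ∀ l : ℕ, l₀ ≤ l → ∃ i, Q i l ∧ ∃ z : ℂ, ‖z - p * l * Complex.I‖ ≤ r ∧ ρ < z.im ∧ J i z = 0) :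
    ∃ i, (∀ z : ℂ, ρ < z.im → J i z = 0) ∧ ∀ L : ℕ, ∃ l : ℕ, L ≤ l ∧ Q i l := by
  classical
  obtain ⟨k, hk⟩ := exists_nat_gt (2 * r / p)
  rw [div_lt_iff₀ hp] at hk
  have hk0 : 0 < k := by
    rcases Nat.eq_zero_or_pos k with h | h
    · subst h
      rw [Nat.cast_zero, zero_mul] at hk
      linarith
    · exact h
  have hkl : ∀ n : ℕ, n ≤ k * n := fun n => Nat.le_mul_of_pos_left n hk0
  have hz' : ∀ n : ℕ, l₀ ≤ n → ∃ i, Q i (k * n) ∧ ∃ z : ℂ, ‖z - ((p * k : ℝ) : ℂ) * n * Complex.I‖ ≤ r ∧ ρ < z.im ∧ J i z = 0 := by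
    intro n hn
    obtain ⟨i, h1, z, h2, h3⟩ := hz (k * n) (hn.trans (hkl n))
    refine ⟨i, h1, z, ?_, h3⟩
    have h4 : ((p * k : ℝ) : ℂ) * n * Complex.I = p * ((k * n : ℕ) : ℂ) * Complex.I := by
      push_cast
      ring
    rwa [h4]
  have hne : Nonempty ι := ⟨(hz' l₀ le_rfl).choose⟩
  choose! sel hQ a ha using hz'
  set N : ι → ℕ → Set ℕ := fun i L => {n | l₀ ≤ n ∧ L ≤ n ∧ sel n = i} with hN
  have key : ∃ i, ∀ L, ¬ Summable ((N i L).indicator fun n : ℕ => 1 / (n : ℝ)) := by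
    by_contra hcon
    push Not at hcon
    choose L hL using hcon
    have hfι : Fintype ι := Fintype.ofFinite ι
    have h1 : Summable fun n : ℕ => ∑ i, (N i (L i)).indicator (fun n : ℕ => 1 / (n : ℝ)) n := summable_sum fun i _ => hL i
    obtain ⟨M, hM⟩ : ∃ M : ℕ, l₀ ≤ M ∧ ∀ i, L i ≤ M := ⟨l₀ + ∑ i, L i, Nat.le_add_right _ _, fun i => by
      have := Finset.single_le_sum (f := L) (fun j _ => Nat.zero_le _) (Finset.mem_univ i)
      omega⟩
    apply Real.not_summable_one_div_natCast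
    refine Summable.of_norm_bounded_eventually_nat h1 ?_
    filter_upwards [eventually_ge_atTop M] with n hn
    have h2 : (1 / (n : ℝ)) = (N (sel n) (L (sel n))).indicator (fun n : ℕ => 1 / (n : ℝ)) n := by
      rw [Set.indicator_of_mem]
      exact ⟨hM.1.trans hn, (hM.2 _).trans hn, rfl⟩
    rw [Real.norm_of_nonneg (by positivity)]
    rw [h2]
    exact Finset.single_le_sum (f := fun i => (N i (L i)).indicator (fun n : ℕ => 1 / (n : ℝ)) n)
      (fun i _ => Set.indicator_nonneg (fun n _ => by positivity) n) (Finset.mem_univ (sel n))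
  obtain ⟨i, hi⟩ := key
  refine ⟨i, ?_, fun L => ?_⟩
  · refine zero_one (p := p * k) (r := r) (by linarith [mul_comm (k : ℝ) p]) hr hC (hJ i) (hb i) (hi 0) (a := a) fun n hn => ?_
    obtain ⟨h1, -, h2⟩ := hn
    have h3 := ha n h1
    rw [h2] at h3
    exact h3
  · by_contra hcon
    push Not at hcon
    apply hi L
    have h1 : N i L = ∅ := by
      ext n
      simp only [Set.mem_empty_iff_false, iff_false]
      rintro ⟨h1, h2, h3⟩
      have h4 := hQ n h1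
      rw [h3] at h4
      exact hcon (k * n) (h2.trans (hkl n)) h4
    rw [h1, Set.indicator_empty]
    exact summable_zero

end Pool.Agent.H62.Bl
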